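import Pool.Agent.Helper16.KL.P0b
import Pool.Agent.Helper16.KL.Psi
import Pool.Agent.HC.RatExt

set_option autoImplicit false
set_option linter.unusedSectionVars false
set_option linter.style.haveILetI false

/-!
Project KL (MP_0b9e0b_ag), KL-12-5: a point of `X` with given coordinates `x` over a finite
separable extension of `N(t)`.
-/

namespace Pool.Agent.Helper26.KL

open Pool.Agent.Helper16 Pool.Agent.Helper1.KL Pool.Agent.HC Pool.Agent.Helper16.KLP

section AS

open Polynomial

theorem exists_AS (L : Type) [Field L] (p : ℕ) [hp : Fact p.Prime] [CharP L p] (B : L) :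
    ∃ (L' : Type) (_ : Field L') (_ : Algebra L L') (_ : FiniteDimensional L L')
      (_ : Algebra.IsSeparable L L') (ε : L'), ε ^ p - ε = algebraMap L L' B := by
  have hp1 : 1 < p := hp.out.one_lt
  set f : L[X] := X ^ p - X - C B with hf
  have hdeg : (X + C B : L[X]).degree < ((X : L[X]) ^ p).degree := by
    rw [degree_X_pow]
    refine lt_of_le_of_lt (degree_X_add_C B).le ?_
    exact_mod_cast hp1
  have hf' : f = X ^ p - (X + C B) := by rw [hf]; ring
  have hfd : f.degree = p := by
    rw [hf', degree_sub_eq_left_of_degree_lt hdeg, degree_X_pow]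
  have hsep : f.Separable := by
    rw [separable_def]
    have h1 : derivative f = -1 := by
      rw [hf]
      simp [derivative_X_pow]
    rw [h1]
    exact ⟨0, -1, by ring⟩
  have hgal := IsGalois.of_separable_splitting_field (F := L) (E := SplittingField f) hsep
  obtain ⟨ε, hε⟩ := (SplittingField.splits f).exists_eval_eq_zero (by
    rw [degree_map, hfd]
    have : (p : WithBot ℕ) ≠ 0 := by exact_mod_cast (by omega : p ≠ 0)
    exact this)
  have hmap : ∀ (A : Type) [Field A] (g : L →+* A) (a : A),
      eval a (f.map g) = a ^ p - a - g B := by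
    intro A _ g a
    rw [hf]
    simp only [Polynomial.map_sub, Polynomial.map_pow, map_X, map_C, eval_sub, eval_pow, eval_X,
      eval_C]
  rw [hmap] at hε
  exact ⟨SplittingField f, inferInstance, inferInstance, inferInstance, inferInstance, ε,
    sub_eq_zero.1 hε⟩

end AS

variable {k : Type} [Field k] {p : ℕ} [Fact p.Prime] [CharP k p] {n : ℕ} {b : Fin n → k}

/-- **KL-12-5.** -/
theorem stExt (hL : ModLift k p b) (τ : Fin n → Option (ZMod p)) : StExt k p b τ := by
  classical
  intro N _ _ x r hN htr hx hρ
  obtain ⟨hx1, hx2, hx3⟩ := hx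
  obtain ⟨L, _, _, _, _, st1, st2, hF, hT, htop⟩ := exists_ratExt (k := k) N
  obtain ⟨hLE, hLtr⟩ := ratExt_data (k := k) (r := r + 1) hF hN (by rw [htr]; push_cast; rfl)
  have hchN : CharP N p := charP_of_injective_algebraMap (algebraMap k N).injective p
  have hchL : CharP L p := charP_of_injective_algebraMap (algebraMap k L).injective p
  obtain ⟨L', _, _, hfin, hsep, ε₀, hε₀⟩ := exists_AS L p (algebraMap N L (Bfun b τ x))
  letI aK : Algebra (RatFunc k) L' := ((algebraMap L L').comp (algebraMap (RatFunc k) L)).toAlgebra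
  haveI st3 : IsScalarTower (RatFunc k) L L' := IsScalarTower.of_algebraMap_eq fun _ => rfl
  letI aN : Algebra N L' := ((algebraMap L L').comp (algebraMap N L)).toAlgebra
  have hNL' : ∀ a : N, algebraMap N L' a = algebraMap L L' (algebraMap N L a) := fun _ => rfl
  have hKL' : ∀ a : k, algebraMap (RatFunc k) L' (RatFunc.C a) =
      algebraMap N L' (algebraMap k N a) := by
    intro a
    rw [hNL', ← IsScalarTower.algebraMap_apply k N L, IsScalarTower.algebraMap_apply k (RatFunc k) L]
    rfl
  set ε : L' := if Bfun b τ x = 0 then 1 else ε₀ with hε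
  have hε1 : ε ^ p - ε = algebraMap N L' (Bfun b τ x) := by
    rw [hε]
    split_ifs with h0
    · rw [h0, map_zero, one_pow, sub_self]
    · exact hε₀
  -- sums over all indices and sums over the indices in `IT τ`
  have hsum : ∀ F : Fin n → N, ∑ i ∈ IT τ, (((RT τ i).cast : L')) * algebraMap N L' (F i) =
      algebraMap N L' (∑ i, (coef τ i : N) * F i) := by
    intro F
    rw [map_sum]
    have h1 : ∀ i, algebraMap N L' ((coef τ i : N) * F i) =
        ((RT τ i).cast : L') * algebraMap N L' (F i) := by
      intro i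
      rw [map_mul, map_natCast, cast_coef]
    rw [Finset.sum_congr rfl fun i _ => h1 i]
    refine Finset.sum_subset (Finset.subset_univ _) fun i _ hi => ?_
    have h2 : τ i = none := by
      by_contra h
      exact hi (mem_IT.2 h)
    have h3 : RT τ i = 0 := by
      unfold RT
      rw [h2]
      rfl
    rw [h3, ZMod.cast_zero, zero_mul]
  have hi0 : ∀ i ∉ IT τ, RT τ i = 0 := by
    intro i hi
    have h2 : τ i = none := by
      by_contra h
      exact hi (mem_IT.2 h)
    unfold RT
    rw [h2]
    rfl
  have heq : ε ^ p - ε = algebraMap (RatFunc k) L' RatFunc.X *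
      ∑ i ∈ IT τ, (RT τ i).cast * algebraMap N L' ((x i).getD 0) +
      ∑ i ∈ IT τ, (RT τ i).cast * algebraMap (RatFunc k) L' (RatFunc.C (b i)) *
        (algebraMap N L' ((x i).getD 0))⁻¹ := by
    rw [hsum, hx3, map_zero, mul_zero, zero_add, hε1]
    unfold Bfun
    have h1 : ∀ i ∈ IT τ, (RT τ i).cast * algebraMap (RatFunc k) L' (RatFunc.C (b i)) *
        (algebraMap N L' ((x i).getD 0))⁻¹ =
        (RT τ i).cast * algebraMap N L' (algebraMap k N (b i) * ((x i).getD 0)⁻¹) := by
      intro i _
      rw [hKL', map_mul, map_inv₀, mul_assoc]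
    rw [Finset.sum_congr rfl h1, hsum]
    congr 1
    refine Finset.sum_congr rfl fun i _ => ?_
    ring
  obtain ⟨M, _, aM, aKM, st4, hfinM, hsepM, z, hz1, hz2, hz3, hz4⟩ := hL L' (IT τ) (RT τ)
    (fun i => algebraMap N L' ((x i).getD 0)) ε hi0 (fun h => absurd h hρ) (fun i hi => by
      obtain ⟨a, ha, hxa⟩ := hx2 i (mem_IT.1 hi)
      rw [hxa]
      exact (map_ne_zero _).2 ha) heq
  letI aLM : Algebra L M := ((algebraMap L' M).comp (algebraMap L L')).toAlgebra
  haveI st5 : IsScalarTower L L' M := IsScalarTower.of_algebraMap_eq fun _ => rfl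
  letI aNM : Algebra N M := ((algebraMap L M).comp (algebraMap N L)).toAlgebra
  haveI st6 : IsScalarTower N L M := IsScalarTower.of_algebraMap_eq fun _ => rfl
  letI akM : Algebra k M := ((algebraMap (RatFunc k) M).comp (algebraMap k (RatFunc k))).toAlgebra
  haveI st7 : IsScalarTower k (RatFunc k) M := IsScalarTower.of_algebraMap_eq fun _ => rfl
  have hKM : ∀ a : RatFunc k, algebraMap (RatFunc k) M a = algebraMap L M (algebraMap _ L a) := by
    intro a
    rw [IsScalarTower.algebraMap_apply (RatFunc k) L' M, IsScalarTower.algebraMap_apply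
      (RatFunc k) L L']
    rfl
  haveI st8 : IsScalarTower (RatFunc k) L M := IsScalarTower.of_algebraMap_eq hKM
  haveI st9 : IsScalarTower k L M := by
    refine IsScalarTower.of_algebraMap_eq fun a => ?_
    rw [IsScalarTower.algebraMap_apply k (RatFunc k) L, ← hKM]
    rfl
  haveI st10 : IsScalarTower k N M := by
    refine IsScalarTower.of_algebraMap_eq fun a => ?_
    rw [IsScalarTower.algebraMap_apply N L M, ← IsScalarTower.algebraMap_apply k N L,
      ← IsScalarTower.algebraMap_apply k L M]
  haveI hfinLM : FiniteDimensional L M := FiniteDimensional.trans L L' M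
  haveI hsepLM : Algebra.IsSeparable L M := Algebra.IsSeparable.trans L L' M
  have hNM : ∀ a : N, algebraMap N M a = algebraMap L' M (algebraMap N L' a) := fun _ => rfl
  refine ⟨L, M, inferInstance, inferInstance, inferInstance, akM, inferInstance, aNM, aLM,
    inferInstance, aKM, st2, st1, st10, st7, st6, st8, st9, hfinLM, hsepLM, z, hT, htop, ?_, ?_,
    hz1, ?_, fun i hi => (hz2 i hi).2, ?_⟩
  · haveI := hLE
    haveI : Algebra.EssFiniteType L M := inferInstance
    exact Algebra.EssFiniteType.comp (RatFunc k) L M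
  · have h1 := trdeg_add_eq (RatFunc k) L (A := M)
    have h2 : Algebra.trdeg L M = 0 := trdeg_eq_zero
    rw [← h1, h2, add_zero, hLtr]
    push_cast
    rfl
  · funext i
    unfold xpt mp
    by_cases hi : i ∈ IT τ
    · rw [(hz2 i hi).1]
      obtain ⟨a, ha, hxa⟩ := hx2 i (mem_IT.1 hi)
      rw [hxa, Option.map_some, hNM]
      rfl
    · rw [hz3 i hi]
      have h2 : τ i = none := by
        by_contra h
        exact hi (mem_IT.2 h)
      rw [hx1 i h2]
      rfl
  · intro h0
    rw [hz4, hε, if_pos h0, map_one]

end Pool.Agent.Helper26.KL
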