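import Pool.Agent.Helper26.KL.Pos

set_option autoImplicit false

/-!
Project KL (MP_0b9e0b_ag): specialised points of `X` are points of `X`, and the relations in terms
of the sums over translations.
-/

namespace Pool.Agent.Helper26.KL

open Pool.Agent.Helper16 Pool.Agent.Helper1.KL Pool.Agent.HC

section Spec

variable {k : Type} [Field k] {p : ℕ} [Fact p.Prime] {n : ℕ} {K N : Type}
  [Field K] [Field N] [Algebra K N]

theorem inv_mem_of_notMem {v : Place K N} {c : N} (hc : c ∉ v.ring) :
    c⁻¹ ∈ v.ring ∧ v.res c⁻¹ = 0 ∧ c ≠ 0 := by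
  have hc0 : c ≠ 0 := by
    rintro rfl
    exact hc (zero_mem _)
  have h1 : 1 < v.val c := by
    rw [v.mem_ring, not_le] at hc
    exact hc
  have h2 : v.val c⁻¹ < 1 := by
    rw [map_inv₀]
    exact (inv_lt_one₀ (zero_lt_one.trans h1)).2 h1
  exact ⟨h2.le, (v.res_eq_zero_iff h2.le).2 h2, hc0⟩

theorem spec_some_of_mem {σ : Type} {v : Place K N} {z : σ → Option N} {j : σ} {a : N}
    (h : z j = some a) (ha : a ∈ v.ring) : spec v z j = some (v.res a) := by
  classical
  unfold spec
  rw [h, Option.bind_some, if_pos ha]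

theorem spec_none_of_notMem {σ : Type} {v : Place K N} {z : σ → Option N} {j : σ} {a : N}
    (h : z j = some a) (ha : a ∉ v.ring) : spec v z j = none := by
  classical
  unfold spec
  rw [h, Option.bind_some, if_neg ha]

theorem spec_none_of_none {σ : Type} {v : Place K N} {z : σ → Option N} {j : σ}
    (h : z j = none) : spec v z j = none := by
  unfold spec
  rw [h, Option.bind_none]

/-- A point of `X` specialises to a point of `X`. -/
theorem XV_spec {b : Fin n → k} {M : Type} [Field M] [Algebra (RatFunc k) M]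
    (v : Place (RatFunc k) M) {z : Fin n ⊕ Fin n → Option M} (hz : XV p b M z) :
    XV p b v.resField (spec v z) := by
  intro i
  have hp : 1 < p := (Fact.out : p.Prime).one_lt
  rcases hz i with ⟨hy, hx⟩ | ⟨a, c, hx, hy, h⟩
  · refine Or.inl ⟨spec_none_of_none hy, ?_⟩
    rcases hx with hx | hx
    · exact Or.inl (spec_none_of_none hx)
    · right
      rw [spec_some_of_mem hx (zero_mem _), v.res_zero]
  · have ht : algebraMap (RatFunc k) M RatFunc.X ∈ v.ring := v.ring.algebraMap_mem _
    have hb : algebraMap (RatFunc k) M (RatFunc.C (b i)) ∈ v.ring := v.ring.algebraMap_mem _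
    by_cases hc : c ∈ v.ring
    · have ha : a ∈ v.ring := by
        by_contra ha
        obtain ⟨h1, h2, h3⟩ := inv_mem_of_notMem ha
        have h4 : algebraMap (RatFunc k) M RatFunc.X = (c ^ p - c) * a⁻¹ -
            algebraMap (RatFunc k) M (RatFunc.C (b i)) * a⁻¹ ^ 2 := by
          field_simp
          linear_combination -h
        have h5 := congrArg v.res h4
        have m1 : c ^ p - c ∈ v.ring := sub_mem (pow_mem hc p) hc
        rw [v.res_sub (mul_mem m1 h1) (mul_mem hb (pow_mem h1 2)), v.res_mul m1 h1,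
          v.res_mul hb (pow_mem h1 2), v.res_pow h1, h2, mul_zero, zero_pow two_ne_zero, mul_zero,
          sub_zero, v.res_algebraMap] at h5
        exact RatFunc.X_ne_zero ((map_eq_zero _).1 h5)
      refine Or.inr ⟨v.res a, v.res c, spec_some_of_mem hx ha, spec_some_of_mem hy hc, ?_⟩
      have h5 := congrArg v.res h
      have m1 : c ^ p - c ∈ v.ring := sub_mem (pow_mem hc p) hc
      rw [v.res_mul ha m1, v.res_sub (pow_mem hc p) hc, v.res_pow hc,
        v.res_add (mul_mem ht (pow_mem ha 2)) hb, v.res_mul ht (pow_mem ha 2), v.res_pow ha,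
        v.res_algebraMap, v.res_algebraMap] at h5
      exact h5
    · refine Or.inl ⟨spec_none_of_notMem hy hc, ?_⟩
      by_cases ha : a ∈ v.ring
      · right
        rw [spec_some_of_mem hx ha]
        congr 1
        obtain ⟨h1, h2, h3⟩ := inv_mem_of_notMem hc
        have h4 : a * (1 - c⁻¹ ^ (p - 1)) = (algebraMap (RatFunc k) M RatFunc.X * a ^ 2 +
            algebraMap (RatFunc k) M (RatFunc.C (b i))) * c⁻¹ ^ p := by
          rw [← h]
          obtain ⟨q, hq⟩ : ∃ q, p = q + 1 := ⟨p - 1, by omega⟩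
          subst hq
          rw [Nat.add_sub_cancel]
          have h5 : c * c⁻¹ = 1 := mul_inv_cancel₀ h3
          have h6 : c ^ (q + 1) * c⁻¹ ^ (q + 1) = 1 := by rw [← mul_pow, h5, one_pow]
          calc a * (1 - c⁻¹ ^ q) = a * (c ^ (q + 1) * c⁻¹ ^ (q + 1) - (c * c⁻¹) * c⁻¹ ^ q) := by
                rw [h6, h5, one_mul]
            _ = a * (c ^ (q + 1) - c) * c⁻¹ ^ (q + 1) := by ring
        have h5 := congrArg v.res h4
        have m1 : (1 : M) - c⁻¹ ^ (p - 1) ∈ v.ring := sub_mem (one_mem _) (pow_mem h1 _)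
        rw [v.res_mul ha m1, v.res_sub (one_mem _) (pow_mem h1 _), v.res_pow h1, h2, v.res_one,
          v.res_mul (add_mem (mul_mem ht (pow_mem ha 2)) hb) (pow_mem h1 p), v.res_pow h1, h2,
          zero_pow (by omega), zero_pow (by omega), sub_zero, mul_one, mul_zero] at h5
        exact h5
      · exact Or.inl (spec_none_of_notMem hx ha)

end Spec

section Rel

variable {k : Type} [Field k] {p : ℕ} [Fact p.Prime] [CharP k p] {n : ℕ} {b : Fin n → k} {r : ℕ}

/-- A relation, summed over the translations in `H`. -/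
theorem rel_SH {M : Type} [Field M] [Algebra (RatFunc k) M]
    (hM : Algebra.EssFiniteType (RatFunc k) M) (htr : Algebra.trdeg (RatFunc k) M = r + 1)
    {z : Fin n ⊕ Fin n → Option M} (hz : XV p b M z) {f : M} (hf : f ≠ 0)
    (H : Finset (Fin n → ZMod p)) :
    ∃ S : Finset (Place (RatFunc k) M),
      (∀ v, v ∈ S ↔ v.ord f ≠ 0 ∧ Algebra.trdeg (RatFunc k) (fld (RatFunc k) (spec v z)) = r) ∧
      (∀ v ∈ S, FiniteDimensional (fld (RatFunc k) (spec v z)) v.resField) ∧
      ∑ v ∈ S, ((v.ord f * Module.finrank (fld (RatFunc k) (spec v z)) v.resField : ℤ) : ℚ) •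
        SH p b r H (spec v z) = 0 := by
  classical
  have hch : ∀ (N : Type) [Field N] [Algebra (RatFunc k) N], CharP N p :=
    fun N _ _ => charP_of k p N
  have hfin := finite_places_spec hM htr z f
  set S := hfin.toFinset with hS
  have hmem : ∀ v, v ∈ S ↔ v.ord f ≠ 0 ∧
      Algebra.trdeg (RatFunc k) (fld (RatFunc k) (spec v z)) = r := by
    intro v
    rw [hS, Set.Finite.mem_toFinset, Set.mem_ofPred_eq]
  refine ⟨S, hmem, fun v hv => finite_resField_spec hM htr ((hmem v).1 hv).2, ?_⟩
  have h3 : ∀ h : Fin n → ZMod p, ∑ v ∈ S,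
      ((v.ord f * Module.finrank (fld (RatFunc k) (spec v z)) v.resField : ℤ) : ℚ) •
        cl p b r (tr h (spec v z)) = 0 := by
    intro h
    have h4 := rel_sum (V := XV p b) (P := fun N _ _ z _ => XV p b N z) (r := r) hM htr
      (z := tr h z) (f := f) (XV_tr h hz) hf (S := S) (fun v => by
        have := hch v.resField
        rw [hmem, spec_tr, XV_tr_iff, fld_tr]
        exact ⟨fun h => ⟨h.1, XV_spec v hz, h.2⟩, fun h => ⟨h.1, h.2.2⟩⟩)
    rw [← h4]
    refine Finset.sum_congr rfl fun v _ => ?_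
    have := hch v.resField
    rw [spec_tr, fld_tr]
  unfold SH
  simp only [Finset.smul_sum]
  rw [Finset.sum_comm]
  exact Finset.sum_eq_zero fun h _ => h3 h

end Rel

end Pool.Agent.Helper26.KL
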