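import Pool.Agent.HC.Fin
import Pool.Agent.Helper1.KL.Stmts

set_option autoImplicit false

/-!
Project KL (MP_0b9e0b_ag), KL-2: how a relation is used. Finiteness of the places which occur,
finiteness of the residue fields, and the sum of the relations over the translations.
-/

namespace Pool.Agent.Helper26.KL

open Pool.Agent.Helper16 Pool.Agent.Helper1.KL Pool.Agent.HC

section Fin

variable {K σ : Type} [Field K] {N : Type} [Field N] [Algebra K N]

/-- The field of a point is generated by its coordinates, infinite ones replaced by `0`. -/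
theorem fld_range (z : σ → Option N) :
    fld K z = IntermediateField.adjoin K (Set.range fun j => (z j).getD 0) := by
  apply le_antisymm
  · refine IntermediateField.adjoin.mono K _ _ ?_
    rintro a ⟨j, hj⟩
    exact ⟨j, by simp [hj]⟩
  · rw [IntermediateField.adjoin_le_iff]
    rintro _ ⟨j, rfl⟩
    change (z j).getD 0 ∈ fld K z
    cases hj : z j with
    | none => exact zero_mem _
    | some a => exact IntermediateField.subset_adjoin K _ ⟨j, hj⟩

/-- A coordinate of the specialised point which is transcendental. -/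
theorem spec_getD {v : Place K N} {z : σ → Option N} {j : σ} (h : (spec v z j).getD 0 ≠ 0) :
    (z j).getD 0 ∈ v.ring ∧ (spec v z j).getD 0 = v.res ((z j).getD 0) := by
  classical
  unfold spec at h ⊢
  rcases hj : z j with _ | a
  · simp [hj] at h
  · rw [hj] at h
    simp only [Option.bind_some, Option.getD_some] at h ⊢
    by_cases ha : a ∈ v.ring
    · rw [if_pos ha] at h ⊢
      exact ⟨ha, rfl⟩
    · rw [if_neg ha] at h
      simp at h

theorem exists_base_spec {v : Place K N} {z : σ → Option N} {r : ℕ}
    (hr : Algebra.trdeg K (fld K (spec v z)) = r) :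
    ∃ e : Fin r → σ, (∀ a, (z (e a)).getD 0 ∈ v.ring) ∧
      AlgebraicIndependent K (fun a => v.res ((z (e a)).getD 0)) ∧
      ∀ a, v.res ((z (e a)).getD 0) ∈ fld K (spec v z) := by
  rw [fld_range] at hr
  obtain ⟨e, he⟩ := exists_indep_sub (K := K) (fun j => (spec v z j).getD 0) hr
  have h0 : ∀ a, (spec v z (e a)).getD 0 ≠ 0 := fun a => he.ne_zero a
  refine ⟨e, fun a => (spec_getD (h0 a)).1, ?_, fun a => ?_⟩
  · have : (fun a => v.res ((z (e a)).getD 0)) = fun a => (spec v z (e a)).getD 0 :=
      funext fun a => (spec_getD (h0 a)).2.symm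
    rw [this]
    exact he
  · rw [← (spec_getD (h0 a)).2, fld_range]
    exact IntermediateField.subset_adjoin K _ ⟨e a, rfl⟩

/-- Only finitely many places occur in a relation. -/
theorem finite_places_spec [Finite σ] {r : ℕ} (hN : Algebra.EssFiniteType K N)
    (htr : Algebra.trdeg K N = r + 1) (z : σ → Option N) (f : N) :
    {v : Place K N | v.ord f ≠ 0 ∧ Algebra.trdeg K (fld K (spec v z)) = r}.Finite := by
  classical
  have h1 : ∀ e : Fin r → σ, {v : Place K N | v.ord f ≠ 0 ∧
      (∀ a, (z (e a)).getD 0 ∈ v.ring) ∧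
      AlgebraicIndependent K (fun a => v.res ((z (e a)).getD 0))}.Finite := by
    intro e
    by_cases hz : AlgebraicIndependent K (fun a => (z (e a)).getD 0)
    · have hF := isFunctionField_of_indep hz hN htr
      obtain ⟨S, hS, -⟩ := hF.product_formula f
      refine Set.Finite.subset ((S.finite_toSet).image (under K)) ?_
      rintro v ⟨hv1, hv2, hv3⟩
      refine ⟨overM v _ fun a ha ha0 => (val_one_of_indep hv2 hv3 ha ha0).1, ?_, rfl⟩
      rw [Finset.mem_coe, hS]
      exact hv1
    · convert Set.finite_empty
      ext v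
      simp only [Set.mem_ofPred_eq, Set.mem_empty_iff_false, iff_false]
      rintro ⟨-, hv2, hv3⟩
      exact hz (indep_of_res hv2 hv3)
  refine Set.Finite.subset (Set.finite_iUnion fun e : Fin r → σ => h1 e) ?_
  rintro v ⟨hv, hr⟩
  obtain ⟨e, h2, h3, -⟩ := exists_base_spec hr
  exact Set.mem_iUnion.2 ⟨e, hv, h2, h3⟩

/-- The residue field of a place is finite over every subfield which contains residues of
sufficiently many independent elements. -/
theorem finite_resField_gen {r : ℕ} (hN : Algebra.EssFiniteType K N)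
    (htr : Algebra.trdeg K N = r + 1) {v : Place K N} {z : Fin r → N} (h2 : ∀ a, z a ∈ v.ring)
    (h3 : AlgebraicIndependent K (fun a => v.res (z a))) (L : IntermediateField K v.resField)
    (h4 : ∀ a, v.res (z a) ∈ L) : Module.Finite L v.resField := by
  classical
  have hF := isFunctionField_of_indep (indep_of_res h2 h3) hN htr
  have htriv := fun a ha ha0 => (val_one_of_indep (v := v) h2 h3 (a := a) ha ha0).1
  set M := IntermediateField.adjoin K (Set.range z) with hM
  let w : Place M N := overM v M htriv
  have h5 := w.finite_resField hF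
  obtain ⟨S, hS⟩ := h5.fg_top
  have h6 : ∀ s : w.resField, ∃ b ∈ v.ring, w.res b = s := fun s => w.res_surj s
  choose b hb hbs using h6
  refine ⟨⟨S.image fun s => v.res (b s), ?_⟩⟩
  rw [eq_top_iff]
  rintro a -
  obtain ⟨c, hc, rfl⟩ := v.res_surj a
  have h7 : w.res c ∈ Submodule.span M (S : Set w.resField) := by rw [hS]; trivial
  have hle : IntermediateField.adjoin K (Set.range fun a => v.res (z a)) ≤ L := by
    rw [IntermediateField.adjoin_le_iff]
    rintro _ ⟨a, rfl⟩
    exact h4 a
  have hMres : ∀ m : M, (m : N) ∈ v.ring ∧ v.res (m : N) ∈ L := by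
    intro m
    by_cases hm : (m : N) = 0
    · rw [hm]
      exact ⟨zero_mem _, by rw [v.res_zero]; exact zero_mem _⟩
    · have := val_one_of_indep (v := v) h2 h3 m.2 hm
      exact ⟨this.1.le, hle this.2⟩
  have key : ∀ s ∈ Submodule.span M (S : Set w.resField), ∀ d ∈ v.ring, w.res d = s →
      v.res d ∈ Submodule.span L ((S.image fun s => v.res (b s)) : Set v.resField) := by
    intro s hs
    induction hs using Submodule.span_induction with
    | mem s hs =>
      intro d hd hds
      have h8 : w.res (d - b s) = 0 := by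
        rw [w.res_sub hd (hb s), hds, hbs, sub_self]
      have h9 : v.res (d - b s) = 0 := by
        rw [v.res_eq_zero_iff (sub_mem hd (hb s))]
        rwa [w.res_eq_zero_iff (show d - b s ∈ w.ring from sub_mem (S := Subalgebra K N) hd (hb s))]
          at h8
      rw [v.res_sub hd (hb s), sub_eq_zero] at h9
      rw [h9]
      refine Submodule.subset_span ?_
      rw [Finset.coe_image]
      exact ⟨s, hs, rfl⟩
    | zero =>
      intro d hd hds
      have h9 : v.res d = 0 := by
        rw [v.res_eq_zero_iff hd]
        rwa [w.res_eq_zero_iff hd] at hds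
      rw [h9]
      exact zero_mem _
    | add s t _ _ ihs iht =>
      intro d hd hds
      have h8 : w.res (d - b s) = t := by
        rw [w.res_sub hd (hb s), hds, hbs]
        ring
      have h9 := ihs (b s) (hb s) (hbs s)
      have h10 := iht (d - b s) (sub_mem (S := Subalgebra K N) hd (hb s)) h8
      have h11 := add_mem h9 h10
      rw [v.res_sub hd (hb s)] at h11
      simpa using h11
    | smul m s _ ihs =>
      intro d hd hds
      have h8 := ihs (b s) (hb s) (hbs s)
      have hm := hMres m
      have h9 : w.res (d - m * b s) = 0 := by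
        rw [w.res_sub hd (mul_mem (S := Subalgebra K N) hm.1 (hb s)), hds,
          w.res_mul (show (m : N) ∈ w.ring from hm.1) (hb s), hbs]
        have : w.res (m : N) = algebraMap M w.resField m := w.res_algebraMap m
        rw [this, Algebra.smul_def, sub_self]
      have h10 : v.res (d - m * b s) = 0 := by
        rw [v.res_eq_zero_iff (sub_mem hd (mul_mem hm.1 (hb s)))]
        rwa [w.res_eq_zero_iff (show d - m * b s ∈ w.ring from
          sub_mem (S := Subalgebra K N) hd (mul_mem hm.1 (hb s)))] at h9
      rw [v.res_sub hd (mul_mem hm.1 (hb s)), sub_eq_zero, v.res_mul hm.1 (hb s)] at h10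
      rw [h10]
      exact Submodule.smul_mem _ (⟨v.res m, hm.2⟩ : L) h8
  exact key _ h7 c hc rfl

/-- The residue field of a place which occurs in a relation is a finite extension of the field
of the specialised point. -/
theorem finite_resField_spec {r : ℕ} (hN : Algebra.EssFiniteType K N)
    (htr : Algebra.trdeg K N = r + 1) {v : Place K N} {z : σ → Option N}
    (hr : Algebra.trdeg K (fld K (spec v z)) = r) :
    Module.Finite (fld K (spec v z)) v.resField := by
  obtain ⟨e, h2, h3, h4⟩ := exists_base_spec hr
  exact finite_resField_gen hN htr h2 h3 _ h4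

theorem finrank_pos_spec {r : ℕ} (hN : Algebra.EssFiniteType K N)
    (htr : Algebra.trdeg K N = r + 1) {v : Place K N} {z : σ → Option N}
    (hr : Algebra.trdeg K (fld K (spec v z)) = r) :
    0 < Module.finrank (fld K (spec v z)) v.resField := by
  have := finite_resField_spec hN htr hr
  exact Module.finrank_pos

/-- A relation between classes. -/
theorem rel_sum {V : Var K σ} {P : VarF K σ} {r : ℕ} (hN : Algebra.EssFiniteType K N)
    (htr : Algebra.trdeg K N = r + 1) {z : σ → Option N} {f : N} (hP : P N z f) (hf : f ≠ 0)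
    {S : Finset (Place K N)} (hS : ∀ v, v ∈ S ↔ v.ord f ≠ 0 ∧ V v.resField (spec v z) ∧
      Algebra.trdeg K (fld K (spec v z)) = r) :
    ∑ v ∈ S, ((v.ord f * Module.finrank (fld K (spec v z)) v.resField : ℤ) : ℚ) •
      cls V P r (spec v z) = 0 := by
  have h1 : (∑ v ∈ S, Finsupp.single (key K (spec v z))
      ((v.ord f * Module.finrank (fld K (spec v z)) v.resField : ℤ) : ℚ)) ∈ rat V P r :=
    Submodule.subset_span ⟨N, inferInstance, inferInstance, z, f, S, hN, htr, hP, hf, hS, rfl⟩
  rw [← Submodule.Quotient.mk_eq_zero] at h1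
  rw [← h1, ← Submodule.mkQ_apply, map_sum]
  refine Finset.sum_congr rfl fun v _ => ?_
  rw [cls, ← Submodule.mkQ_apply, ← map_smul, Finsupp.smul_single, smul_eq_mul, mul_one]

end Fin

section Tr

variable {k : Type} [Field k] {p : ℕ} [Fact p.Prime] [CharP k p] {n : ℕ}

theorem charP_of (k : Type) [Field k] (p : ℕ) [CharP k p] (N : Type) [Field N]
    [Algebra (RatFunc k) N] : CharP N p := by
  have h1 : CharP (RatFunc k) p := charP_of_injective_algebraMap (R := k)
    (FaithfulSMul.algebraMap_injective k (RatFunc k)) p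
  exact charP_of_injective_algebraMap (R := RatFunc k) (algebraMap (RatFunc k) N).injective p

theorem map_zcast {A B : Type} [Ring A] [Ring B] (f : A →+* B) (a : ZMod p) :
    f (a.cast : A) = (a.cast : B) := by
  rw [← ZMod.natCast_val, ← ZMod.natCast_val, map_natCast]

theorem cast_pow {A : Type} [Field A] [CharP A p] (a : ZMod p) : ((a.cast : A)) ^ p = a.cast := by
  have h1 := ZMod.pow_card a
  have h2 : ((a ^ p : ZMod p).cast : A) = (a.cast : A) ^ p := by
    rw [ZMod.cast_pow' a p]
  rw [← h2, h1]

theorem curve_tr {N : Type} [Field N] [CharP N p] {t b : N} {x y : Option N} (a : ZMod p)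
    (h : Curve p t b x y) : Curve p t b x (y.map fun c => c + (a.cast : N)) := by
  rcases h with ⟨rfl, h⟩ | ⟨u, c, rfl, rfl, h⟩
  · exact Or.inl ⟨rfl, h⟩
  · refine Or.inr ⟨u, c + a.cast, rfl, rfl, ?_⟩
    rw [← h, add_pow_char, cast_pow]
    ring

theorem XV_tr {b : Fin n → k} {N : Type} [Field N] [Algebra (RatFunc k) N]
    {z : Fin n ⊕ Fin n → Option N} (h : Fin n → ZMod p) (hz : XV p b N z) :
    XV p b N (tr h z) := by
  have := charP_of k p N
  exact fun i => curve_tr (h i) (hz i)

theorem tr_neg_tr {N : Type} [Field N] [CharP N p] (h : Fin n → ZMod p)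
    (z : Fin n ⊕ Fin n → Option N) : tr (-h) (tr h z) = z := by
  funext j
  rcases j with i | i
  · rfl
  · simp only [tr]
    cases z (Sum.inr i) with
    | none => rfl
    | some c =>
      simp only [Option.map_some, Pi.neg_apply]
      rw [ZMod.cast_neg (dvd_refl p), add_assoc, add_neg_cancel, add_zero]

theorem XV_tr_iff {b : Fin n → k} {N : Type} [Field N] [Algebra (RatFunc k) N]
    {z : Fin n ⊕ Fin n → Option N} (h : Fin n → ZMod p) :
    XV p b N (tr h z) ↔ XV p b N z := by
  have := charP_of k p N
  refine ⟨fun hz => ?_, XV_tr h⟩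
  have h1 := XV_tr (-h) hz
  rwa [tr_neg_tr] at h1

theorem cast_mem {K N : Type} [Field K] [Field N] [Algebra K N] (L : IntermediateField K N)
    (a : ZMod p) : (a.cast : N) ∈ L := by
  rw [← ZMod.natCast_val]
  exact natCast_mem L _

theorem fld_tr_le {K N : Type} [Field K] [Field N] [Algebra K N] (h : Fin n → ZMod p)
    (z : Fin n ⊕ Fin n → Option N) : fld K (tr h z) ≤ fld K z := by
  unfold fld
  rw [IntermediateField.adjoin_le_iff]
  rintro a ⟨j, hj⟩
  rcases j with i | i
  · exact IntermediateField.subset_adjoin K _ ⟨Sum.inl i, hj⟩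
  · simp only [tr, Option.map_eq_some_iff] at hj
    obtain ⟨c, hc, rfl⟩ := hj
    exact add_mem (IntermediateField.subset_adjoin K _ ⟨Sum.inr i, hc⟩) (cast_mem _ _)

theorem fld_tr {K N : Type} [Field K] [Field N] [Algebra K N] [CharP N p] (h : Fin n → ZMod p)
    (z : Fin n ⊕ Fin n → Option N) : fld K (tr h z) = fld K z := by
  refine le_antisymm (fld_tr_le h z) ?_
  have h1 := fld_tr_le (K := K) (-h) (tr h z)
  rwa [tr_neg_tr] at h1

theorem cast_mem_ring {K N : Type} [Field K] [Field N] [Algebra K N] (v : Place K N)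
    (a : ZMod p) : (a.cast : N) ∈ v.ring ∧ v.res (a.cast : N) = a.cast := by
  have h1 : algebraMap K N (a.cast : K) = (a.cast : N) := map_zcast (algebraMap K N) a
  rw [← h1]
  refine ⟨v.ring.algebraMap_mem _, ?_⟩
  rw [v.res_algebraMap]
  exact map_zcast (algebraMap K v.resField) a

theorem spec_tr {K N : Type} [Field K] [Field N] [Algebra K N] (v : Place K N)
    (h : Fin n → ZMod p) (z : Fin n ⊕ Fin n → Option N) : spec v (tr h z) = tr h (spec v z) := by
  classical
  funext j
  rcases j with i | i
  · rfl
  · unfold spec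
    simp only [tr]
    cases z (Sum.inr i) with
    | none => rfl
    | some c =>
      simp only [Option.map_some, Option.bind_some]
      obtain ⟨h1, h2⟩ := cast_mem_ring v (h i)
      by_cases hc : c ∈ v.ring
      · rw [if_pos hc, if_pos (add_mem hc h1), v.res_add hc h1, h2]
        rfl
      · rw [if_neg hc, if_neg]
        · rfl
        · intro hc'
          apply hc
          have := sub_mem hc' h1
          rwa [add_sub_cancel_right] at this

end Tr

section Main

variable (k : Type) [Field k] (p : ℕ) [Fact p.Prime] [CharP k p] {n : ℕ} (b : Fin n → k) (r : ℕ)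

/-- **KL-2.** -/
theorem modPos : ModPos k p b r := by
  intro M _ _ hM htr z hz f hf H W α h1 h2
  classical
  have hch : ∀ (N : Type) [Field N] [Algebra (RatFunc k) N], CharP N p :=
    fun N _ _ => charP_of k p N
  have hfin := (finite_places_spec hM htr z f).subset
    (show {v : Place (RatFunc k) M | v.ord f ≠ 0 ∧ XV p b v.resField (spec v z) ∧
      Algebra.trdeg (RatFunc k) (fld (RatFunc k) (spec v z)) = r} ⊆ _ from
      fun v hv => ⟨hv.1, hv.2.2⟩)
  set S := hfin.toFinset with hS
  have hmem : ∀ v, v ∈ S ↔ v.ord f ≠ 0 ∧ XV p b v.resField (spec v z) ∧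
      Algebra.trdeg (RatFunc k) (fld (RatFunc k) (spec v z)) = r := by
    intro v
    rw [hS, Set.Finite.mem_toFinset, Set.mem_ofPred_eq]
  let m : Place (RatFunc k) M → ℚ := fun v =>
    ((v.ord f * Module.finrank (fld (RatFunc k) (spec v z)) v.resField : ℤ) : ℚ)
  have h3 : ∀ h : Fin n → ZMod p, ∑ v ∈ S, m v • cl p b r (tr h (spec v z)) = 0 := by
    intro h
    have h4 := rel_sum (V := XV p b) (P := fun N _ _ z _ => XV p b N z) (r := r) hM htr
      (z := tr h z) (f := f) (XV_tr h hz) hf (S := S) (fun v => by
        have := hch v.resField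
        rw [hmem, spec_tr, XV_tr_iff, fld_tr])
    rw [← h4]
    refine Finset.sum_congr rfl fun v _ => ?_
    have := hch v.resField
    rw [spec_tr, fld_tr]
  have h4 : ∑ v ∈ S, m v • SH p b r H (spec v z) = 0 := by
    unfold SH
    simp only [Finset.smul_sum]
    rw [Finset.sum_comm]
    exact Finset.sum_eq_zero fun h _ => h3 h
  by_contra hcon
  rw [← Finset.sum_filter_add_sum_filter_not S (fun v => SH p b r H (spec v z) = α)] at h4
  have h5 : (∑ v ∈ S with ¬ SH p b r H (spec v z) = α, m v • SH p b r H (spec v z)) ∈ W := by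
    refine sum_mem fun v hv => W.smul_mem _ ?_
    rw [Finset.mem_filter, hmem] at hv
    rcases h1 v hv.1.1 hv.1.2.1 hv.1.2.2 with h | h
    · exact h
    · exact absurd h.2 hv.2
  have h6 : (∑ v ∈ S with SH p b r H (spec v z) = α, m v • SH p b r H (spec v z)) =
      (∑ v ∈ S with SH p b r H (spec v z) = α, m v) • α := by
    rw [Finset.sum_smul]
    refine Finset.sum_congr rfl fun v hv => ?_
    rw [(Finset.mem_filter.1 hv).2]
  rw [h6] at h4
  have h7 : (∑ v ∈ S with SH p b r H (spec v z) = α, m v) • α ∈ W := by
    rw [eq_neg_of_add_eq_zero_left h4]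
    exact W.neg_mem h5
  refine hcon ?_
  have hpos : 0 < ∑ v ∈ S with SH p b r H (spec v z) = α, m v := by
    refine Finset.sum_pos (fun v hv => ?_) ?_
    · rw [Finset.mem_filter, hmem] at hv
      rcases h1 v hv.1.1 hv.1.2.1 hv.1.2.2 with h | h
      · rw [hv.2] at h
        exact absurd h hcon
      · have h8 := finrank_pos_spec hM htr hv.1.2.2
        change (0 : ℚ) < ((_ : ℤ) : ℚ)
        exact_mod_cast mul_pos h.1 (by exact_mod_cast h8)
    · obtain ⟨v, h8, h9, h10, h11⟩ := h2
      exact ⟨v, by rw [Finset.mem_filter, hmem]; exact ⟨⟨h8.ne', h9, h10⟩, h11⟩⟩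
  have h8 := W.smul_mem (∑ v ∈ S with SH p b r H (spec v z) = α, m v)⁻¹ h7
  rwa [smul_smul, inv_mul_cancel₀ hpos.ne', one_smul] at h8

end Main

end Pool.Agent.Helper26.KL
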